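import Pool.Agent.Y865.SP.Stm

set_option autoImplicit false

namespace Pool.Agent.Y79.SP

open Pool.Agent.Y865.SP Filter Topology
open scoped RealInnerProductSpace

variable {E : Type} [NormedAddCommGroup E] [InnerProductSpace ℝ E]

lemma neg_mem {M : Set E} (hM : Mirrors M) {n : E} (hn : n ∈ M) : -n ∈ M := by
  have h := hM.closed n hn n hn
  have e : rf n n = -n := by
    unfold rf
    rw [real_inner_self_eq_norm_sq, hM.unit n hn]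
    have : n - (2 * (1 : ℝ) ^ 2) • n = (1 - 2 * (1 : ℝ) ^ 2) • n := by
      rw [sub_smul, one_smul]
    rw [this]
    norm_num
  rwa [e] at h

/-- a point between two points which separates two normal vectors -/
lemma between1 {M : Set E} (hM : M.Finite) (p p' n m : E) (hp : ∀ k ∈ M, ⟪k, p⟫ ≠ 0)
    (hn : 0 < ⟪n, p⟫) (hn' : ⟪n, p'⟫ < 0) (hm : 0 < ⟪m, p⟫) (hm' : ⟪m, p'⟫ < 0)
    (h : ⟪m, p⟫ * ⟪n, p'⟫ < ⟪n, p⟫ * ⟪m, p'⟫) :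
    ∃ x : E, (∀ k ∈ M, ⟪k, x⟫ ≠ 0) ∧ (∀ k ∈ M, 0 < ⟪k, p⟫ → 0 < ⟪k, p'⟫ → 0 < ⟪k, x⟫) ∧
      ⟪n, x⟫ < 0 ∧ 0 < ⟪m, x⟫ := by
  set a := ⟪n, p⟫ with ha
  set a' := ⟪n, p'⟫ with ha'
  set b := ⟪m, p⟫ with hb
  set b' := ⟪m, p'⟫ with hb'
  have hf : ∀ (k : E) (τ : ℝ), ⟪k, p + τ • (p' - p)⟫ = ⟪k, p⟫ + τ * (⟪k, p'⟫ - ⟪k, p⟫) := by
    intro k τ
    rw [inner_add_right, inner_smul_right, inner_sub_right]
  have hlt : a / (a - a') < b / (b - b') := by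
    rw [div_lt_div_iff₀ (by linarith) (by linarith)]
    nlinarith
  have hfin : (⋃ k ∈ M, {τ : ℝ | ⟪k, p + τ • (p' - p)⟫ = 0}).Finite := by
    refine hM.biUnion fun k hk => Set.Subsingleton.finite ?_
    intro s hs t ht
    rw [Set.mem_setOf_eq, hf] at hs ht
    have h0 := hp k hk
    have h1 : (s - t) * (⟪k, p'⟫ - ⟪k, p⟫) = 0 := by linarith
    rcases mul_eq_zero.1 h1 with h2 | h2
    · linarith
    · rw [h2, mul_zero, add_zero] at hs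
      exact absurd hs h0
  obtain ⟨τ, ⟨h1, h2⟩, h3⟩ := ((Set.Ioo_infinite hlt).sdiff hfin).nonempty
  have hτ0 : 0 < τ := lt_of_le_of_lt (div_nonneg hn.le (by linarith)) h1
  have hτ1 : τ < 1 := lt_of_lt_of_le h2 ((div_le_one (by linarith)).2 (by linarith))
  rw [div_lt_iff₀ (by linarith)] at h1
  rw [lt_div_iff₀ (by linarith)] at h2
  refine ⟨p + τ • (p' - p), ?_, ?_, ?_, ?_⟩
  · intro k hk h4
    apply h3
    exact Set.mem_biUnion hk h4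
  · intro k _ h4 h5
    rw [hf]
    nlinarith [mul_pos (sub_pos.2 hτ1) h4, mul_pos hτ0 h5]
  · rw [hf]
    nlinarith
  · rw [hf]
    nlinarith

lemma between {M : Set E} (hM : M.Finite) (p p' n m : E) (hp : ∀ k ∈ M, ⟪k, p⟫ ≠ 0)
    (hn : 0 < ⟪n, p⟫) (hn' : ⟪n, p'⟫ < 0) (hm : 0 < ⟪m, p⟫) (hm' : ⟪m, p'⟫ < 0)
    (h : ⟪m, p⟫ * ⟪n, p'⟫ ≠ ⟪n, p⟫ * ⟪m, p'⟫) :
    ∃ x : E, (∀ k ∈ M, ⟪k, x⟫ ≠ 0) ∧ (∀ k ∈ M, 0 < ⟪k, p⟫ → 0 < ⟪k, p'⟫ → 0 < ⟪k, x⟫) ∧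
      ((⟪n, x⟫ < 0 ∧ 0 < ⟪m, x⟫) ∨ (⟪m, x⟫ < 0 ∧ 0 < ⟪n, x⟫)) := by
  rcases lt_or_gt_of_ne h with h1 | h1
  · obtain ⟨x, h2, h3, h4, h5⟩ := between1 hM p p' n m hp hn hn' hm hm' h1
    exact ⟨x, h2, h3, Or.inl ⟨h4, h5⟩⟩
  · obtain ⟨x, h2, h3, h4, h5⟩ := between1 hM p p' m n hp hm hm' hn hn' h1
    exact ⟨x, h2, h3, Or.inr ⟨h4, h5⟩⟩

/-- perturbation of a point of a chamber -/
lemma perturb {M : Set E} (hM : M.Finite) (p v : E) (hp : ∀ k ∈ M, ⟪k, p⟫ ≠ 0) (hv : v ≠ 0) :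
    ∃ q : E, (∀ k ∈ M, 0 < ⟪k, p⟫ * ⟪k, q⟫) ∧ ⟪v, q⟫ ≠ 0 := by
  by_cases h0 : ⟪v, p⟫ = 0
  · have hev : ∀ k ∈ M, ∀ᶠ e : ℝ in 𝓝 0, 0 < ⟪k, p⟫ * ⟪k, p + e • v⟫ := by
      intro k hk
      have hc : Continuous fun e : ℝ => ⟪k, p⟫ * ⟪k, p + e • v⟫ := by fun_prop
      have h1 : 0 < ⟪k, p⟫ * ⟪k, p + (0 : ℝ) • v⟫ := by
        rw [zero_smul, add_zero]
        exact mul_self_pos.2 (hp k hk)
      exact hc.continuousAt.eventually (lt_mem_nhds h1)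
    have hall : ∀ᶠ e : ℝ in 𝓝 0, ∀ k ∈ M, 0 < ⟪k, p⟫ * ⟪k, p + e • v⟫ :=
      (Filter.eventually_all_finite hM).2 hev
    have h2 : ∀ᶠ e : ℝ in 𝓝[≠] 0, (∀ k ∈ M, 0 < ⟪k, p⟫ * ⟪k, p + e • v⟫) ∧ e ≠ 0 :=
      (hall.filter_mono nhdsWithin_le_nhds).and self_mem_nhdsWithin
    obtain ⟨e, he, he0⟩ := h2.exists
    refine ⟨p + e • v, he, ?_⟩
    rw [inner_add_right, h0, zero_add, inner_smul_right, real_inner_self_eq_norm_sq]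
    have : 0 < ‖v‖ := norm_pos_iff.2 hv
    positivity
  · exact ⟨p, fun k hk => mul_self_pos.2 (hp k hk), h0⟩

/-- a chamber strictly between two chambers separated by at least two mirrors -/
lemma exists_mid {M : Set E} (hM : Mirrors M) {C D : Set E} (hC : IsCh M C) (hD : IsCh M D)
    {n m : E} (hn : n ∈ C) (hnD : n ∉ D) (hm : m ∈ C) (hmD : m ∉ D) (hnm : n ≠ m) :
    ∃ A, IsCh M A ∧ C ∩ D ⊆ A ∧ ((n ∉ A ∧ m ∈ A) ∨ (m ∉ A ∧ n ∈ A)) := by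
  obtain ⟨p, hp, rfl⟩ := hC
  obtain ⟨p', hp', rfl⟩ := hD
  have h1 : ⟪n, p'⟫ < 0 := by
    rcases lt_trichotomy ⟪n, p'⟫ 0 with h | h | h
    · exact h
    · exact absurd h (hp' n hn.1)
    · exact absurd ⟨hn.1, h⟩ hnD
  have h2 : ⟪m, p'⟫ < 0 := by
    rcases lt_trichotomy ⟪m, p'⟫ 0 with h | h | h
    · exact h
    · exact absurd h (hp' m hm.1)
    · exact absurd ⟨hm.1, h⟩ hmD
  have hv : ⟪m, p'⟫ • n - ⟪n, p'⟫ • m ≠ 0 := by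
    intro h
    have h3 : ⟪m, p'⟫ • n = ⟪n, p'⟫ • m := sub_eq_zero.1 h
    have h4 := congrArg norm h3
    rw [norm_smul, norm_smul, hM.unit n hn.1, hM.unit m hm.1, mul_one, mul_one,
      Real.norm_eq_abs, Real.norm_eq_abs, abs_of_neg h1, abs_of_neg h2] at h4
    have h5 : ⟪m, p'⟫ = ⟪n, p'⟫ := by linarith
    rw [h5] at h3
    exact hnm (smul_right_injective E h1.ne h3)
  obtain ⟨q, hq, hvq⟩ := perturb hM.fin p _ hp hv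
  have hq0 : ∀ k ∈ M, ⟪k, q⟫ ≠ 0 := fun k hk h => by
    have := hq k hk
    rw [h, mul_zero] at this
    exact lt_irrefl _ this
  have hqp : ∀ k ∈ M, 0 < ⟪k, p⟫ → 0 < ⟪k, q⟫ := fun k hk h => (pos_iff_pos_of_mul_pos (hq k hk)).1 h
  have hne : ⟪m, q⟫ * ⟪n, p'⟫ ≠ ⟪n, q⟫ * ⟪m, p'⟫ := by
    intro h
    apply hvq
    rw [inner_sub_left, inner_smul_left, inner_smul_left]
    simp only [conj_trivial]
    linarith
  obtain ⟨x, hx1, hx2, hx3⟩ := between hM.fin q p' n m hq0 (hqp n hn.1 hn.2) h1 (hqp m hm.1 hm.2) h2 hne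
  refine ⟨{k | k ∈ M ∧ 0 < ⟪k, x⟫}, ⟨x, hx1, rfl⟩, ?_, ?_⟩
  · rintro k ⟨hk1, hk2⟩
    exact ⟨hk1.1, hx2 k hk1.1 (hqp k hk1.1 hk1.2) hk2.2⟩
  · rcases hx3 with ⟨h3, h4⟩ | ⟨h3, h4⟩
    · exact Or.inl ⟨fun h => lt_asymm h.2 h3, hm.1, h4⟩
    · exact Or.inr ⟨fun h => lt_asymm h.2 h3, hn.1, h4⟩

lemma neg_mem_ch {M C : Set E} (hM : Mirrors M) (hC : IsCh M C) {k : E} (hk : k ∈ M) (h : k ∉ C) :
    -k ∈ C := by
  obtain ⟨p, hp, rfl⟩ := hC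
  refine ⟨neg_mem hM hk, ?_⟩
  rw [inner_neg_left]
  rcases lt_trichotomy ⟪k, p⟫ 0 with h1 | h1 | h1
  · linarith
  · exact absurd h1 (hp k hk)
  · exact absurd ⟨hk, h1⟩ h

lemma ch_sub {M C : Set E} (hC : IsCh M C) : C ⊆ M := by
  obtain ⟨p, _, rfl⟩ := hC
  exact fun k hk => hk.1

lemma not_both {M C : Set E} (hC : IsCh M C) {k : E} (h : k ∈ C) : -k ∉ C := by
  obtain ⟨p, _, rfl⟩ := hC
  rintro ⟨_, h2⟩
  rw [inner_neg_left] at h2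
  linarith [h.2]

theorem t_conn : S_CONN := by
  intro E _ _ M hM S hS hS'
  classical
  obtain ⟨C0, hC0, hC0S⟩ := hS
  obtain ⟨D0, hD0, hD0S⟩ := hS'
  have hex : ∃ r : ℕ, ∃ C D, IsCh M C ∧ C ∈ S ∧ IsCh M D ∧ D ∉ S ∧ (C \ D).ncard = r :=
    ⟨_, C0, D0, hC0, hC0S, hD0, hD0S, rfl⟩
  obtain ⟨C, D, hC, hCS, hD, hDS, hr⟩ := Nat.find_spec hex
  have hmin : ∀ C' D', IsCh M C' → C' ∈ S → IsCh M D' → D' ∉ S → ¬ (C' \ D') ⊂ (C \ D) := by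
    intro C' D' h1 h2 h3 h4 h5
    have hfin : (C \ D).Finite := (hM.fin.subset (ch_sub hC)).subset Set.sdiff_subset
    have h6 := Set.ncard_lt_ncard h5 hfin
    rw [hr] at h6
    exact Nat.find_min hex h6 ⟨C', D', h1, h2, h3, h4, rfl⟩
  -- `C \ D` is nonempty
  have hne : (C \ D).Nonempty := by
    rw [Set.sdiff_nonempty]
    intro h
    apply hDS
    have : C = D := by
      refine Set.Subset.antisymm h fun k hk => ?_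
      by_contra h2
      exact not_both hD hk (h (neg_mem_ch hM hC (ch_sub hD hk) h2))
    rwa [← this]
  obtain ⟨n, hn, hnD⟩ := hne
  have huniq : ∀ m ∈ C, m ∉ D → m = n := by
    intro m hm hmD
    by_contra hmn
    obtain ⟨A, hA, hCDA, hA2⟩ := exists_mid hM hC hD hn hnD hm hmD (Ne.symm hmn)
    -- `A` is contained in `C ∪ D`
    have hAsub : ∀ k ∈ A, k ∉ D → k ∈ C := by
      intro k hk hkD
      by_contra hkC
      have hkM := ch_sub hA hk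
      exact not_both hA hk (hCDA ⟨neg_mem_ch hM hC hkM hkC, neg_mem_ch hM hD hkM hkD⟩)
    obtain ⟨a, b, haC, haD, hbC, hbD, haA, hbA⟩ : ∃ a b, a ∈ C ∧ a ∉ D ∧ b ∈ C ∧ b ∉ D ∧ a ∉ A ∧ b ∈ A := by
      rcases hA2 with ⟨h1, h2⟩ | ⟨h1, h2⟩
      · exact ⟨n, m, hn, hnD, hm, hmD, h1, h2⟩
      · exact ⟨m, n, hm, hmD, hn, hnD, h1, h2⟩
    by_cases hAS : A ∈ S
    · refine hmin A D hA hAS hD hDS ⟨fun k hk => ⟨hAsub k hk.1 hk.2, hk.2⟩, fun h => ?_⟩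
      exact haA (h ⟨haC, haD⟩).1
    · refine hmin C A hC hCS hA hAS ⟨fun k hk => ⟨hk.1, fun h => hk.2 (hCDA ⟨hk.1, h⟩)⟩, fun h => ?_⟩
      exact (h ⟨hbC, hbD⟩).2 hbA
  refine ⟨C, D, n, hC, hCS, hD, hDS, hn, ?_⟩
  ext k
  constructor
  · intro hk
    by_cases hkC : k ∈ C
    · refine Or.inl ⟨hkC, ?_⟩
      rintro rfl
      exact hnD hk
    · right
      have h1 := neg_mem_ch hM hC (ch_sub hD hk) hkC
      have h2 := huniq _ h1 (not_both hD hk)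
      rw [Set.mem_singleton_iff, ← h2, neg_neg]
  · rintro (⟨h1, h2⟩ | h1)
    · by_contra h3
      exact h2 (huniq k h1 h3)
    · rw [Set.mem_singleton_iff] at h1
      rw [h1]
      exact neg_mem_ch hM hD (ch_sub hC hn) hnD

end Pool.Agent.Y79.SP
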